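import Pool.Agent.P.MP_b00834_co.V7

set_option autoImplicit false

namespace Pool.Agent.Results.MP_b00834_co.AllMatroids

/-- Every finite matroid with at least two elements, in which any two different elements lie in a
common circuit, has a list of exactly `c(M)` cocircuits (repetitions allowed), `c(M)` the largest
size of a circuit, in which every element of the ground set occurs at two or more positions. -/
theorem result :
    ∀ (α : Type) (M : Matroid α), M.E.Finite → 2 ≤ M.E.ncard →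
      (∀ e ∈ M.E, ∀ f ∈ M.E, e ≠ f → ∃ C : Set α, M.IsCircuit C ∧ e ∈ C ∧ f ∈ C) →
      ∃ L : List (Set α),
        IsGreatest {n : ℕ | ∃ C : Set α, M.IsCircuit C ∧ C.ncard = n} L.length ∧
        (∀ D ∈ L, M.IsCocircuit D) ∧
        ∀ e ∈ M.E, 2 ≤ {i : Fin L.length | e ∈ L.get i}.ncard := by
  intro α M hfin h2 hc
  have : M.Finite := ⟨hfin⟩
  have hE : M.E.Nontrivial := (Set.one_lt_ncard_iff_nontrivial_and_finite.1 h2).1
  have hc' : ∀ e ∈ M.E, ∀ f ∈ M.E, ∃ C : Set α, M.IsCircuit C ∧ e ∈ C ∧ f ∈ C := by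
    intro e he f hf
    by_cases h : e = f
    · subst h
      obtain ⟨g, hg, hge⟩ := hE.exists_ne e
      obtain ⟨C, hC, h1, -⟩ := hc e he g hg hge.symm
      exact ⟨C, hC, h1, h1⟩
    · exact hc e he f hf h
  have hne : {n : ℕ | ∃ C : Set α, M.IsCircuit C ∧ C.ncard = n}.Nonempty := by
    obtain ⟨x, hx⟩ := hE.nonempty
    obtain ⟨C, hC, -⟩ := hc' x hx x hx
    exact ⟨_, C, hC, rfl⟩
  have hbd : BddAbove {n : ℕ | ∃ C : Set α, M.IsCircuit C ∧ C.ncard = n} := by
    refine ⟨M.E.ncard, ?_⟩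
    rintro n ⟨C, hC, rfl⟩
    exact Set.ncard_le_ncard hC.subset_ground hfin
  obtain ⟨c, hcg⟩ : ∃ c, IsGreatest {n : ℕ | ∃ C : Set α, M.IsCircuit C ∧ C.ncard = n} c :=
    ⟨_, Nat.sSup_mem hne hbd, fun n hn => le_csSup hbd hn⟩
  obtain ⟨D, hD, hD2⟩ := Pool.Agent.Vert.vertigan M h2 hc' c fun C hC => hcg.2 ⟨C, hC, rfl⟩
  have hlen : (List.ofFn D).length = c := List.length_ofFn
  refine ⟨List.ofFn D, hlen.symm ▸ hcg, fun X hX => ?_, fun e he => ?_⟩
  · obtain ⟨i, rfl⟩ := List.mem_ofFn.1 hX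
    exact hD i
  · obtain ⟨i, j, hij, hi, hj⟩ := hD2 e he
    refine (Set.one_lt_ncard (Set.toFinite _)).2
      ⟨i.cast hlen.symm, ?_, j.cast hlen.symm, ?_, fun h => hij (Fin.cast_injective _ h)⟩
    · simpa using hi
    · simpa using hj

end Pool.Agent.Results.MP_b00834_co.AllMatroids
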