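import Pool.Agent.P.MP_b00834_co.Single

set_option autoImplicit false

namespace Pool.Agent.Results.MP_b00834_co.RealDemands

/-- Let `M` be a finite connected matroid with at least two elements that is represented over the
reals. If the demands `d e` are at most `N` and add up to at most `2 * N` on every circuit, then
some list of `N` cocircuits has every element `e` in at least `d e` of its members. -/
theorem result :
    ∀ (α V : Type) [AddCommGroup V] [Module ℝ V] (v : α → V) (M : Matroid α),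
      (∀ I : Set α, M.Indep I ↔ I ⊆ M.E ∧ LinearIndepOn ℝ v I) →
      M.E.Finite → 2 ≤ M.E.ncard →
      (∀ e ∈ M.E, ∀ f ∈ M.E, e ≠ f → ∃ C : Set α, M.IsCircuit C ∧ e ∈ C ∧ f ∈ C) →
      ∀ (d : α → ℕ) (N : ℕ), (∀ e ∈ M.E, d e ≤ N) →
        (∀ C : Finset α, M.IsCircuit (C : Set α) → ∑ e ∈ C, d e ≤ 2 * N) →
        ∃ D : Fin N → Set α, (∀ i, M.IsCocircuit (D i)) ∧
          ∀ e ∈ M.E, d e ≤ {i : Fin N | e ∈ D i}.ncard :=
  fun _ _ _ _ _ _ hv hfin h2 hconn d N hd hc =>
    Pool.Agent.Vertigan.demand_cover hv hfin h2 hconn d N hd hc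

/-- The instance with constant demand `k`: if all circuits have at most `c` elements, then
`⌈k c / 2⌉` cocircuits cover every element at least `k` times. -/
theorem kfold (α V : Type) [AddCommGroup V] [Module ℝ V] (v : α → V) (M : Matroid α)
    (hv : ∀ I : Set α, M.Indep I ↔ I ⊆ M.E ∧ LinearIndepOn ℝ v I)
    (hfin : M.E.Finite) (h2 : 2 ≤ M.E.ncard)
    (hconn : ∀ e ∈ M.E, ∀ f ∈ M.E, e ≠ f → ∃ C : Set α, M.IsCircuit C ∧ e ∈ C ∧ f ∈ C)
    (k c : ℕ) (hc2 : 2 ≤ c) (hc : ∀ C : Set α, M.IsCircuit C → C.ncard ≤ c) :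
    ∃ D : Fin ((k * c + 1) / 2) → Set α, (∀ i, M.IsCocircuit (D i)) ∧
      ∀ e ∈ M.E, k ≤ {i | e ∈ D i}.ncard := by
  refine result α V v M hv hfin h2 hconn (fun _ => k) _ (fun _ _ => ?_) fun C hC => ?_
  · have := Nat.mul_le_mul_left k hc2
    omega
  · have h1 := hc _ hC
    rw [Set.ncard_coe_finset] at h1
    have h3 := Nat.mul_le_mul_left k h1
    rw [Finset.sum_const, smul_eq_mul, mul_comm]
    omega

end Pool.Agent.Results.MP_b00834_co.RealDemands
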